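import Pool.Agent.W261.NM.Stm2
import Pool.Agent.W261.NM.Low
import Pool.Agent.H373R2.NB.Weyl

set_option autoImplicit false

namespace Pool.Agent.W346.NM
open Finset Filter Topology
open Pool.Agent.W261.NM
open Pool.Agent.H373R2.NB
open Pool.Agent.Helper602.MK (ee)

open Polynomial in
theorem Ph_polyR (d : ℕ) : ∀ f : ℝ[X], f.natDegree ≤ d → ∀ γ : ℝ,
    Ph d (γ * ((d.factorial : ℝ) * f.coeff d)) (fun n => γ * f.eval (n : ℝ)) := by
  induction d with
  | zero =>
    intro f hf γ n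
    have h1 : f = C (f.coeff 0) := eq_C_of_natDegree_le_zero hf
    have h2 : f.eval (n : ℝ) = f.coeff 0 := by
      conv_lhs => rw [h1]
      rw [eval_C]
    show γ * f.eval (n : ℝ) = _
    rw [h2]; simp
  | succ d ih =>
    intro f hf γ h
    set g : ℝ[X] := taylor (h : ℝ) f - f with hg
    have hcoef : ∀ j, d ≤ j → (taylor (h : ℝ) f).coeff j =
        f.coeff j + (if j = d then ((d : ℝ) + 1) * f.coeff (d + 1) * h else 0) := by
      intro j hj
      rw [taylor_coeff]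
      have h1 : (hasseDeriv j f).natDegree < 2 := by
        have := natDegree_hasseDeriv_le f j
        omega
      rw [eval_eq_sum_range' h1, sum_range_succ, sum_range_succ, sum_range_zero, hasseDeriv_coeff,
        hasseDeriv_coeff]
      rcases eq_or_ne j d with h2 | h2
      · subst h2
        rw [if_pos rfl, zero_add, zero_add, Nat.choose_self, add_comm 1 j,
          Nat.choose_succ_self_right]
        push_cast
        ring
      · rw [if_neg h2]
        have h3 : f.coeff (1 + j) = 0 := coeff_eq_zero_of_natDegree_lt (by omega)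
        rw [h3, zero_add, zero_add, Nat.choose_self]
        push_cast
        ring
    have hgd : g.natDegree ≤ d := by
      rw [natDegree_le_iff_coeff_eq_zero]
      intro j hj
      rw [hg, coeff_sub, hcoef j (by omega), if_neg (by omega)]
      ring
    have hgc : g.coeff d = ((d : ℝ) + 1) * f.coeff (d + 1) * h := by
      rw [hg, coeff_sub, hcoef d le_rfl, if_pos rfl]; ring
    have h1 := ih g hgd γ
    have h2 : (fun n : ℕ => γ * g.eval (n : ℝ)) = fun n : ℕ =>
        γ * f.eval ((n + h : ℕ) : ℝ) - γ * f.eval (n : ℝ) := by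
      funext n
      rw [hg, eval_sub, taylor_eval]
      push_cast
      ring
    have h3 : γ * ((d.factorial : ℝ) * g.coeff d) =
        (h : ℝ) * (γ * (((d + 1).factorial : ℝ) * f.coeff (d + 1))) := by
      rw [hgc, Nat.factorial_succ]; push_cast; ring
    rw [h2, h3] at h1
    exact h1

theorem ex_eq (x : ℝ) : ex x = ee x := by
  unfold ex ee
  try push_cast
  try ring_nf

theorem poly : S_poly := by
  intro b hb ξ halg hirr k hk s C hC
  obtain ⟨cI, mI, hcI, hI⟩ := IW_all k hk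
  obtain ⟨c0, hc0, N0, hN0⟩ := lowbd b hb ξ halg hirr s C (1 / 2) hC (by norm_num)
  set c1 := min c0 1 with hc1
  have hc1pos : 0 < c1 := lt_min hc0 one_pos
  have hc1le : c1 ≤ 1 := min_le_right _ _
  have hc1c0 : c1 ≤ c0 := min_le_left _ _
  have hmI : (0 : ℝ) < (mI : ℝ) + 1 := by positivity
  set c := c1 / (4 * ((mI : ℝ) + 1)) with hc
  have hcpos : 0 < c := by positivity
  have hcm : c * ((mI : ℝ) + 1) = c1 / 4 := by
    rw [hc]; field_simp
  have hcle : c ≤ 1 / 4 := by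
    have h1 : c ≤ c * ((mI : ℝ) + 1) := by
      have : (0 : ℝ) ≤ mI := Nat.cast_nonneg _
      nlinarith
    linarith
  have hcmI : c * mI ≤ 1 / 4 := by nlinarith
  have hexp : 0 < c0 - c1 / 4 := by linarith
  have ht1 : Tendsto (fun N : ℕ => (N : ℝ) ^ (c0 - c1 / 4)) atTop atTop :=
    (tendsto_rpow_atTop hexp).comp tendsto_natCast_atTop_atTop
  have ht2 : Tendsto (fun N : ℕ => (N : ℝ) ^ (1 / 4 : ℝ)) atTop atTop :=
    (tendsto_rpow_atTop (by norm_num)).comp tendsto_natCast_atTop_atTop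
  obtain ⟨N1, hN1⟩ := eventually_atTop.1 ((ht1.eventually_ge_atTop
    ((cI : ℝ) * (k.factorial : ℝ))).and ((ht2.eventually_ge_atTop (cI : ℝ)).and
      (eventually_ge_atTop 1)))
  refine ⟨c, hcpos, by linarith, max N0 N1, ?_⟩
  intro N hN K H hK hH F hFd hFl e he lam hlam hM
  have hNN0 : N0 ≤ N := (le_max_left _ _).trans hN
  obtain ⟨hA, hB, hN1'⟩ := hN1 N ((le_max_right _ _).trans hN)
  have hNR : (1 : ℝ) ≤ N := by exact_mod_cast hN1'
  have hNpos : (0 : ℝ) < N := by linarith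
  by_contra hcon
  push Not at hcon
  set M : ℤ := ∑ i, lam i * (b : ℤ) ^ (e i) with hMdef
  set u : ℝ := (N : ℝ) ^ c with hu
  have hu1 : 1 ≤ u := Real.one_le_rpow hNR hcpos.le
  have hcoef : F.coeff k = ξ := by rw [← hFd]; exact hFl
  have hPh := Ph_polyR k F hFd.le (M : ℝ)
  rw [hcoef] at hPh
  have hS : (N : ℝ) ≤ u * ‖∑ n ∈ range N, ee ((M : ℝ) * F.eval (n : ℝ))‖ := by
    have h1 : ∑ n ∈ range N, ee ((M : ℝ) * F.eval (n : ℝ)) =
        ∑ m ∈ range N, ex ((M : ℝ) * F.eval (m : ℝ)) :=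
      Finset.sum_congr rfl fun m _ => (ex_eq _).symm
    rw [h1]
    calc (N : ℝ) = (N : ℝ) ^ c * (N : ℝ) ^ (1 - c) := by
          rw [← Real.rpow_add hNpos]; simp
      _ ≤ u * ‖∑ m ∈ range N, ex ((M : ℝ) * F.eval (m : ℝ))‖ := by
          rw [hu]
          gcongr
  obtain ⟨q, hq1, hq2, a, ha⟩ := hI N u _ _ hN1' hu1 hPh hS
  have huM : u ^ mI = (N : ℝ) ^ (c * mI) := by
    rw [hu, ← Real.rpow_natCast, ← Real.rpow_mul hNpos.le]
  have hqR : (1 : ℝ) ≤ q := by exact_mod_cast hq1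
  have hfac : (0 : ℝ) < (k.factorial : ℝ) := by exact_mod_cast Nat.factorial_pos k
  -- the scaled coefficients
  have hlamb : ∀ i, |(((q : ℤ) * (k.factorial : ℤ) * lam i : ℤ) : ℝ)| ≤ (N : ℝ) ^ c0 := by
    intro i
    have h1 : |(((q : ℤ) * (k.factorial : ℤ) * lam i : ℤ) : ℝ)| =
        q * (k.factorial : ℝ) * |(lam i : ℝ)| := by
      push_cast
      rw [abs_mul, abs_mul, abs_of_nonneg (by positivity : (0 : ℝ) ≤ q), abs_of_pos hfac]
    rw [h1]
    calc (q : ℝ) * (k.factorial : ℝ) * |(lam i : ℝ)|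
        ≤ (cI * (N : ℝ) ^ (c * mI)) * (k.factorial : ℝ) * (N : ℝ) ^ c := by
          have h2 : |(lam i : ℝ)| ≤ (N : ℝ) ^ c := (hlam i).trans hH
          have h3 : (q : ℝ) ≤ cI * (N : ℝ) ^ (c * mI) := by rw [← huM]; exact hq2
          gcongr
      _ = (cI * (k.factorial : ℝ)) * (N : ℝ) ^ (c1 / 4) := by
          rw [← hcm, mul_add, mul_one, Real.rpow_add hNpos]; ring
      _ ≤ (N : ℝ) ^ (c0 - c1 / 4) * (N : ℝ) ^ (c1 / 4) := by gcongr
      _ = (N : ℝ) ^ c0 := by rw [← Real.rpow_add hNpos]; ring_nf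
  have hsum : ∑ i, ((q : ℤ) * (k.factorial : ℤ) * lam i) * (b : ℤ) ^ (e i) =
      (q : ℤ) * (k.factorial : ℤ) * M := by
    rw [hMdef, Finset.mul_sum]
    exact Finset.sum_congr rfl fun i _ => by ring
  have hne : ∑ i, ((q : ℤ) * (k.factorial : ℤ) * lam i) * (b : ℤ) ^ (e i) ≠ 0 := by
    rw [hsum]
    refine mul_ne_zero (mul_ne_zero ?_ ?_) hM
    · exact_mod_cast (by omega : q ≠ 0)
    · exact_mod_cast (Nat.factorial_pos k).ne'
  have hlow := hN0 N hNN0 e (fun i => le_trans (by exact_mod_cast he i) hK)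
    (fun i => (q : ℤ) * (k.factorial : ℤ) * lam i) hlamb hne a
  rw [hsum] at hlow
  have heq : ξ * (((q : ℤ) * (k.factorial : ℤ) * M : ℤ) : ℝ) - a =
      q * ((M : ℝ) * ((k.factorial : ℝ) * ξ)) - a := by
    push_cast; ring
  rw [heq] at hlow
  have hup : |(q : ℝ) * ((M : ℝ) * ((k.factorial : ℝ) * ξ)) - a| ≤ (N : ℝ) ^ (-(1 / 2) : ℝ) := by
    refine ha.trans ?_
    rw [huM]
    have hk1 : (N : ℝ) ≤ (N : ℝ) ^ k := by
      calc (N : ℝ) = (N : ℝ) ^ 1 := (pow_one _).symm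
        _ ≤ (N : ℝ) ^ k := pow_le_pow_right₀ hNR hk
    calc (cI : ℝ) * (N : ℝ) ^ (c * mI) / (N : ℝ) ^ k
        ≤ (N : ℝ) ^ (1 / 4 : ℝ) * (N : ℝ) ^ (1 / 4 : ℝ) / (N : ℝ) := by
          gcongr
      _ = (N : ℝ) ^ (-(1 / 2) : ℝ) := by
          rw [← Real.rpow_add hNpos]
          conv_lhs => rw [← Real.rpow_one (N : ℝ)]
          rw [Real.rpow_one, ← Real.rpow_sub_one hNpos.ne']
          norm_num
  exact absurd hlow (not_lt.2 hup)

end Pool.Agent.W346.NM
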